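import Pool.Agent.W120.WM.Defs
import Pool.Agent.H370R2.Local
import Pool.Agent.H370R2.DirGood

/-! WM-HOR: good heights for `1 / ζ`. -/

set_option autoImplicit false

open Complex Filter Topology Set MeasureTheory

namespace Pool.Agent.W915.WM

open Pool.Agent.W120.WM

/-- `1/ζ` is bounded for `re s ≥ 3/2` -/
theorem zeta_inv_right : ∃ B : ℝ, 1 ≤ B ∧ ∀ s : ℂ, 3 / 2 ≤ s.re →
    riemannZeta s ≠ 0 ∧ ‖(riemannZeta s)⁻¹‖ ≤ B := by
  have hsum : Summable (fun n : ℕ => 1 / (n : ℝ) ^ (3 / 2 : ℝ)) :=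
    Real.summable_one_div_nat_rpow.2 (by norm_num)
  refine ⟨max 1 (∑' n : ℕ, 1 / (n : ℝ) ^ (3 / 2 : ℝ)), le_max_left _ _, fun s hs => ?_⟩
  have hs1 : 1 < s.re := by linarith
  have h0 : riemannZeta s ≠ 0 := riemannZeta_ne_zero_of_one_lt_re hs1
  refine ⟨h0, ?_⟩
  have h1 := ArithmeticFunction.LSeries_zeta_mul_Lseries_moebius hs1
  rw [ArithmeticFunction.LSeries_zeta_eq_riemannZeta hs1] at h1
  have h2 := inv_eq_of_mul_eq_one_right h1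
  rw [h2]
  have hterm : ∀ n : ℕ, ‖LSeries.term (fun n => ((ArithmeticFunction.moebius n : ℤ) : ℂ)) s n‖ ≤
      1 / (n : ℝ) ^ (3 / 2 : ℝ) := by
    intro n
    rw [LSeries.norm_term_eq]
    split_ifs with hn
    · positivity
    · have hn1 : (1 : ℝ) ≤ n := by exact_mod_cast Nat.one_le_iff_ne_zero.2 hn
      have hmu : ‖((ArithmeticFunction.moebius n : ℤ) : ℂ)‖ ≤ 1 := by
        rw [Complex.norm_intCast]
        exact_mod_cast ArithmeticFunction.abs_moebius_le_one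
      have hpow : (n : ℝ) ^ (3 / 2 : ℝ) ≤ (n : ℝ) ^ s.re :=
        Real.rpow_le_rpow_of_exponent_le hn1 hs
      have hpos : 0 < (n : ℝ) ^ (3 / 2 : ℝ) := by positivity
      gcongr
  unfold LSeries
  have hs2 : Summable (fun n : ℕ =>
      ‖LSeries.term (fun n => ((ArithmeticFunction.moebius n : ℤ) : ℂ)) s n‖) :=
    Summable.of_nonneg_of_le (fun _ => norm_nonneg _) hterm hsum
  exact ((norm_tsum_le_tsum_norm hs2).trans (hs2.tsum_le_tsum hterm hsum)).trans (le_max_right _ _)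

/-- lower bound for `ζ` by integrating `ζ'/ζ` -/
theorem low (M t σ : ℝ) (ht : 0 < t) (hσ : σ ≤ 3 / 2)
    (h : ∀ x ∈ Icc σ (3 / 2), riemannZeta (⟨x, t⟩ : ℂ) ≠ 0 ∧
      ‖deriv riemannZeta (⟨x, t⟩ : ℂ) / riemannZeta (⟨x, t⟩ : ℂ)‖ ≤ M) :
    ‖riemannZeta (⟨3 / 2, t⟩ : ℂ)‖ ≤ ‖riemannZeta (⟨σ, t⟩ : ℂ)‖ * Real.exp (M * (3 / 2 - σ)) := by
  have hne : ∀ x : ℝ, (⟨x, t⟩ : ℂ) ≠ 1 := by
    intro x hx
    have := congrArg Complex.im hx
    simp only [one_im] at this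
    linarith
  have hd : ∀ x : ℝ, HasDerivAt (fun x : ℝ => riemannZeta (⟨x, t⟩ : ℂ))
      (deriv riemannZeta (⟨x, t⟩ : ℂ)) x := by
    intro x
    have h1 : HasDerivAt (fun x : ℝ => (⟨x, t⟩ : ℂ)) 1 x := by
      have e : (fun x : ℝ => (⟨x, t⟩ : ℂ)) = fun x : ℝ => (x : ℂ) + t * I := by
        funext u; apply Complex.ext <;> simp
      rw [e]
      exact (Complex.ofRealCLM.hasDerivAt (x := x)).add_const _
    have := HasDerivAt.scomp (g₁ := riemannZeta) (h := fun x : ℝ => (⟨x, t⟩ : ℂ)) x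
        ((differentiableAt_riemannZeta (hne x)).hasDerivAt) h1
    rw [one_smul] at this
    exact this
  have hcont : ContinuousOn (fun x : ℝ => riemannZeta (⟨x, t⟩ : ℂ)) (Icc σ (3 / 2)) :=
    fun x _ => (hd x).continuousAt.continuousWithinAt
  have hb : ∀ x ∈ Ico σ (3 / 2), ‖deriv riemannZeta (⟨x, t⟩ : ℂ)‖ ≤
      M * ‖riemannZeta (⟨x, t⟩ : ℂ)‖ + 0 := by
    intro x hx
    obtain ⟨h1, h2⟩ := h x ⟨hx.1, hx.2.le⟩
    rw [norm_div, div_le_iff₀ (norm_pos_iff.2 h1)] at h2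
    linarith
  have := norm_le_gronwallBound_of_norm_deriv_right_le hcont
    (fun x _ => (hd x).hasDerivWithinAt) (le_refl _) hb (3 / 2) ⟨hσ, le_rfl⟩
  rwa [gronwallBound_ε0] at this

/-- good heights -/
theorem hor : T_HOR := by
  obtain ⟨B, hB, hright⟩ := zeta_inv_right
  obtain ⟨Ch, hCh, hheight⟩ := H370.good_height H370.good_zeta
  refine ⟨B + 2 * Ch, by positivity, fun T hT => ?_⟩
  obtain ⟨U, hU1, hU⟩ := hheight T hT
  refine ⟨U, hU1, ?_⟩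
  set L : ℝ := Real.log T with hL
  have hL1 : 1 ≤ L := by
    rw [hL, Real.le_log_iff_exp_le (by linarith)]
    have := Real.exp_one_lt_d9
    linarith
  have hU0 : 0 < U := by linarith [hU1.1]
  have main : ∀ σ ∈ Icc (-1 / 2 : ℝ) (3 / 2), riemannZeta (⟨σ, U⟩ : ℂ) ≠ 0 ∧
      ‖(riemannZeta (⟨σ, U⟩ : ℂ))⁻¹‖ ≤ Real.exp ((B + 2 * Ch) * L ^ 2) := by
    intro σ hσ
    have h1 := low (Ch * L ^ 2) U σ hU0 hσ.2
      (fun x hx => hU x ⟨le_trans hσ.1 hx.1, hx.2⟩)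
    have h2 := (hU σ hσ).1
    refine ⟨h2, ?_⟩
    obtain ⟨h3, h4⟩ := hright (⟨3 / 2, U⟩ : ℂ) le_rfl
    have hp2 : 0 < ‖riemannZeta (⟨σ, U⟩ : ℂ)‖ := norm_pos_iff.2 h2
    have hp3 : 0 < ‖riemannZeta (⟨3 / 2, U⟩ : ℂ)‖ := norm_pos_iff.2 h3
    have h5 : Real.exp (Ch * L ^ 2 * (3 / 2 - σ)) ≤ Real.exp (2 * Ch * L ^ 2) := by
      apply Real.exp_le_exp.2
      have h51 : 0 ≤ Ch * L ^ 2 := by positivity
      have h52 : 3 / 2 - σ ≤ 2 := by linarith [hσ.1]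
      calc Ch * L ^ 2 * (3 / 2 - σ) ≤ Ch * L ^ 2 * 2 := mul_le_mul_of_nonneg_left h52 h51
        _ = 2 * Ch * L ^ 2 := by ring
    have h6 : ‖riemannZeta (⟨3 / 2, U⟩ : ℂ)‖ ≤
        ‖riemannZeta (⟨σ, U⟩ : ℂ)‖ * Real.exp (2 * Ch * L ^ 2) :=
      h1.trans (mul_le_mul_of_nonneg_left h5 hp2.le)
    have h7 : ‖(riemannZeta (⟨σ, U⟩ : ℂ))⁻¹‖ ≤
        ‖(riemannZeta (⟨3 / 2, U⟩ : ℂ))⁻¹‖ * Real.exp (2 * Ch * L ^ 2) := by
      rw [norm_inv, norm_inv, inv_mul_eq_div, inv_eq_one_div, div_le_div_iff₀ hp2 hp3]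
      linarith
    have hBe : B ≤ Real.exp (B * L ^ 2) := by
      have e1 := Real.add_one_le_exp (B * L ^ 2)
      have e2 : (1 : ℝ) ≤ L ^ 2 := by nlinarith
      have e3 : B * 1 ≤ B * L ^ 2 := mul_le_mul_of_nonneg_left e2 (by linarith)
      linarith
    have hexp : 0 ≤ Real.exp (2 * Ch * L ^ 2) := (Real.exp_pos _).le
    calc _ ≤ B * Real.exp (2 * Ch * L ^ 2) := h7.trans (mul_le_mul_of_nonneg_right h4 hexp)
      _ ≤ Real.exp (B * L ^ 2) * Real.exp (2 * Ch * L ^ 2) :=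
          mul_le_mul_of_nonneg_right hBe hexp
      _ = Real.exp ((B + 2 * Ch) * L ^ 2) := by rw [← Real.exp_add]; congr 1; ring
  intro σ hσ t ht
  rcases (abs_eq hU0.le).1 ht with h | h
  · rw [h]
    exact main σ hσ
  · have e : riemannZeta (⟨σ, t⟩ : ℂ) = (starRingEnd ℂ) (riemannZeta (⟨σ, U⟩ : ℂ)) := by
      rw [← riemannZeta_conj]
      congr 1
      apply Complex.ext
      · simp
      · simp [h]
    obtain ⟨m1, m2⟩ := main σ hσ
    rw [e]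
    refine ⟨fun h0 => m1 ((map_eq_zero _).1 h0), ?_⟩
    rw [← map_inv₀, Complex.norm_conj]
    exact m2

end Pool.Agent.W915.WM
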